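import Pool.Agent.TH260.HE.Final

/-!
# BSD modulo `p`: reduction to hyperelementary extensions

Let `E` be an elliptic curve over a number field `K`, let `F/K` be a finite Galois extension (for
instance `F = K(E[N])`) and `p` a prime. If the congruence `ord_{s=1} L(E/M, s) ≡ rk E(M) (mod p)`
holds for all fields `K ⊆ M ⊆ F` for which `Gal(F/M)` is `p`-hyperelementary, then it holds for all
fields `K ⊆ M ⊆ F`, in particular for `M = K`. The case `p = 2` is the question Q1.

Proof: by Solomon's induction theorem some multiple, prime to `p`, of the permutation character of
`Gal(F/K)/H` is a combination of those of the `p`-hyperelementary subgroups (`solomon`). The ranks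
satisfy the relations between permutation characters (`relation_inv`, `finrank_inv`,
`finrank_points`), and so do the orders of vanishing (`homs_relation`, `order_relation`): the
contribution of a place `v` of `K`, ramified or not, to the logarithm of the Euler product over `M`
is determined by the numbers of homomorphisms from the ring of integers of `M` to the finite
extensions of the residue field of `v`, and these numbers are the values of a fixed functional at
the permutation character of `Gal(F/M)`.

The Euler product is taken over the places not above a finite set `S` which contains the places of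
bad reduction; the omitted Euler factors have neither zeros nor poles at `s = 1`.
-/

set_option autoImplicit false

open NumberField Classical IsDedekindDomain Pool.Agent.TH260.HE

namespace Pool.Agent.Results.MP_413b36_nt.HyperelementaryReduction

/-- If `ord_{s=1} L(E/M, s) ≡ rk E(M) (mod p)` for all `M` between `K` and `F` with
`p`-hyperelementary `Gal(F/M)`, then this holds for all `M` between `K` and `F`. -/
theorem result (p : ℕ) (hp : p.Prime) (K F : Type) [Field K] [NumberField K] [Field F]
    [NumberField F] [Algebra K F] [IsGalois K F] (E : WeierstrassCurve K) [E.IsElliptic]
    -- the Mordell-Weil theorem, by which the ranks are defined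
    (hMW : Module.Finite ℤ (E.baseChange F).toAffine.Point)
    -- models of `E` with good reduction outside the finite set `S`
    (S : Finset (HeightOneSpectrum (𝓞 K)))
    (W : HeightOneSpectrum (𝓞 K) → WeierstrassCurve (𝓞 K))
    (_hW : ∀ v ∉ S, (∃ C : WeierstrassCurve.VariableChange K,
      C • E = (W v).map (algebraMap (𝓞 K) K)) ∧ (W v).Δ ∉ v.asIdeal)
    -- the continuations of the `L`-functions of `E` over the intermediate fields
    (U : Set ℂ) (hU : IsConnected U) (h1 : (1 : ℂ) ∈ U) (hr : {s : ℂ | 3 / 2 < s.re} ⊆ U)
    (L : IntermediateField K F → ℂ → ℂ)
    (hL : ∀ M : IntermediateField K F, Continues W S U M (L M))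
    -- the congruence for the hyperelementary extensions
    (hyp : ∀ M : IntermediateField K F, HypEl p M.fixingSubgroup →
      (meromorphicOrderAt (L M) 1).untop₀ ≡
        Module.finrank ℤ (E.baseChange M).toAffine.Point [ZMOD p]) :
    ∀ M : IntermediateField K F,
      (meromorphicOrderAt (L M) 1).untop₀ ≡
        Module.finrank ℤ (E.baseChange M).toAffine.Point [ZMOD p] :=
  fun M => main p hp E W S U hU h1 hr L hL hyp M

end Pool.Agent.Results.MP_413b36_nt.HyperelementaryReduction
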