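import Pool.Agent.TH942.RA.Known
import Pool.Agent.TH942.ES.Curve
import Pool.Agent.TH942.ES.Frob

/-!
# The conjecture of Birch and Swinnerton-Dyer modulo 2 as a law with an integral power of `log X`

Let `K` be a number field, `C : y² = x³ + a x + b` an elliptic curve over `K`, `a, b ∈ 𝓞 K`, and let `F` be a
continuation of the (incomplete) `L`-series of `C` which is holomorphic for `Re s > 1` and at `s = 1` and of moderate
growth, `|F(s)| ≤ A (1 + |s - 1|)^A (1 + 1 / Re (s - 1))^A` for `Re s > 1` (as it is if the completed `L`-function is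
entire of finite order with the functional equation). Let `N(X)` be the number of `K`-rational points of `C` whose
`x`-coordinate has height at most `X`, `q_v` the norm of a prime `v` and `N_v` the number of affine points modulo
`v`, and for real `k ≥ 0`

  `Π_k(X) = ∏_{q_v ≤ X} ((N_v + 1) / q_v)^((1 - log q_v / log X)^k)`,

the product over the good primes; `Π_0` is the product of Birch and Swinnerton-Dyer. It is shown that the following
are EQUIVALENT:

* the order of vanishing of `F` at `1` is congruent to the rank modulo `2`, and `F` has no zeros with `Re s > 1`;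
* there is an INTEGER `j` such that `N(X) ≍ √Π_k(X) · (log X)^j` for every real `k > 0`;
* there is an integer `j` such that `N(X) ≍ √Π_k(X) · (log X)^j` for ONE real `k ≥ 0`.

In general the exponent is half the difference of the rank and the order. So the conjecture modulo `2` says that the
comparison of the rational points with the points modulo primes gives an integral power of `log X`, and the
full conjecture that this power is the power with exponent `0`.

Proof. Néron's theorem and the equivalence of the law `log Π_k(X) = m log log X + O(1)` for one `k ≥ 0` with the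
continuation of `log L` to `Re s > 1` with a bound (`Pool/Agent/TH942/RA`: Laplace transforms of the sums of
order `k` in `log X` in one direction, and the method of Riesz means with the theorems of Poisson and
Borel-Carathéodory in the other).
-/

set_option autoImplicit false

namespace Pool.Agent.Results.MP_413b36_nt.IntegralPowerLaw

open Filter Topology NumberField IsDedekindDomain
open Pool.Agent.TH942.ES

section definitions

variable {K : Type} [Field K] [NumberField K]

open Classical in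
/-- The rank of the group of `K`-rational points of `y² = x³ + a x + b`. -/
noncomputable def rank (a b : 𝓞 K) : ℕ :=
  Module.finrank ℤ
    (WeierstrassCurve.Affine.Point
      (WeierstrassCurve.toAffine
        ({ a₁ := 0, a₂ := 0, a₃ := 0, a₄ := (a : K), a₆ := (b : K) } : WeierstrassCurve K)))

/-- The number of `K`-rational points of `y² = x³ + a x + b`, the point at infinity included, whose
`x`-coordinate has (multiplicative, relative to `K`) height at most `X`. -/
noncomputable def pointsUpTo (a b : 𝓞 K) (X : ℝ) : ℕ :=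
  Nat.card {P : K × K // P.2 ^ 2 = P.1 ^ 3 + a * P.1 + b ∧ Height.mulHeight₁ P.1 ≤ X} + 1

/-- The norm `q_v` of a prime. -/
noncomputable def q (v : HeightOneSpectrum (𝓞 K)) : ℕ := Ideal.absNorm v.asIdeal

/-- The primes which do not divide `6 (4 a³ + 27 b²)`. -/
def Good (a b : 𝓞 K) (v : HeightOneSpectrum (𝓞 K)) : Prop :=
  6 * (4 * a ^ 3 + 27 * b ^ 2) ∉ v.asIdeal

/-- The number `N_v` of affine points modulo `v`. -/
noncomputable def pointCount (a b : 𝓞 K) (v : HeightOneSpectrum (𝓞 K)) : ℕ :=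
  Nat.card {P : (𝓞 K ⧸ v.asIdeal) × (𝓞 K ⧸ v.asIdeal) //
    P.2 ^ 2 = P.1 ^ 3 + Ideal.Quotient.mk v.asIdeal a * P.1 + Ideal.Quotient.mk v.asIdeal b}

/-- The incomplete `L`-series, the product of `(1 - (q_v - N_v) q_v^{-s} + q_v^{1 - 2 s})⁻¹`; it is used for
`Re s > 3/2`, where the product converges absolutely. -/
noncomputable def L (a b : 𝓞 K) (s : ℂ) : ℂ :=
  ∏' v : {v // Good a b v},
    (1 - ((q v.1 : ℂ) - pointCount a b v.1) * (q v.1 : ℂ) ^ (-s) + (q v.1 : ℂ) ^ (1 - 2 * s))⁻¹

/-- `Π_k(X)`: the product over the good primes with `q_v ≤ X` of the powers of `(N_v + 1) / q_v` with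
exponents `(1 - log q_v / log X)^k`. -/
noncomputable def rieszProduct (a b : 𝓞 K) (k X : ℝ) : ℝ :=
  ∏ᶠ (v : {v // Good a b v}) (_ : (q v.1 : ℝ) ≤ X),
    (((pointCount a b v.1 : ℝ) + 1) / q v.1) ^ ((1 - Real.log (q v.1) / Real.log X) ^ k)

/-- The law `N(X) ≍ √Π_k(X) · (log X)^j`. -/
def Law (a b : 𝓞 K) (j : ℤ) (k : ℝ) : Prop :=
  ∃ A B : ℝ, 0 < A ∧ 0 < B ∧ ∀ᶠ X : ℝ in atTop,
    A * (Real.sqrt (rieszProduct a b k X) * Real.log X ^ j) ≤ pointsUpTo a b X ∧
    (pointsUpTo a b X : ℝ) ≤ B * (Real.sqrt (rieszProduct a b k X) * Real.log X ^ j)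

/-- `F` is holomorphic for `Re s > 1` and at `s = 1`, is equal to `L` for `Re s > 3/2`, and satisfies
`|F(s)| ≤ A (1 + |s - 1|)^A (1 + 1 / Re (s - 1))^A` for `Re s > 1`. -/
def Continues (a b : 𝓞 K) (F : ℂ → ℂ) : Prop :=
  (∀ s : ℂ, 1 < s.re → DifferentiableAt ℂ F s) ∧ AnalyticAt ℂ F 1 ∧
    (∀ s : ℂ, 3 / 2 < s.re → F s = L a b s) ∧
    ∃ A : ℝ, ∀ s : ℂ, 1 < s.re → ‖F s‖ ≤ A * (1 + ‖s - 1‖) ^ A * (1 + 1 / (s.re - 1)) ^ A

end definitions

section proofs

variable {K : Type} [Field K] [NumberField K] {a b : 𝓞 K} {F : ℂ → ℂ}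

theorem Continues.isCont (h : Continues a b F) : IsCont a b F := ⟨h.1, h.2.1, h.2.2.1⟩

/-- equality of parities -/
theorem par_iff (r m : ℕ) : (-1 : ℤ) ^ r = (-1) ^ m ↔ ∃ j : ℤ, (r : ℝ) = m + 2 * j := by
  constructor
  · intro h
    have h1 : ∃ j : ℤ, (r : ℤ) = m + 2 * j := by
      rcases Nat.even_or_odd' r with ⟨x, hx | hx⟩ <;> rcases Nat.even_or_odd' m with ⟨y, hy | hy⟩
      · exact ⟨x - y, by omega⟩
      · exfalso
        rw [hx, hy, pow_succ, pow_mul, pow_mul] at h
        norm_num at h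
      · exfalso
        rw [hx, hy, pow_succ, pow_mul, pow_mul] at h
        norm_num at h
      · exact ⟨x - y, by omega⟩
    obtain ⟨j, hj⟩ := h1
    exact ⟨j, by exact_mod_cast hj⟩
  · rintro ⟨j, hj⟩
    have h1 : (r : ℤ) = m + 2 * j := by exact_mod_cast hj
    rcases Nat.even_or_odd' r with ⟨x, hx | hx⟩ <;> rcases Nat.even_or_odd' m with ⟨y, hy | hy⟩
    · rw [hx, hy, pow_mul, pow_mul]
      norm_num
    · omega
    · omega
    · rw [hx, hy, pow_succ, pow_succ, pow_mul, pow_mul]
      norm_num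

/-- the set of primes of bounded norm -/
theorem fin_le (a b : 𝓞 K) (Y : ℝ) : {v : {v // Good a b v} | (q v.1 : ℝ) ≤ Y}.Finite :=
  (sysV a b).fin_le Y

theorem factor_pos (v : {v // Good a b v}) : 0 < ((pointCount a b v.1 : ℝ) + 1) / q v.1 := by
  have hp0 : (0 : ℝ) < q v.1 := (sysV a b).Npos v
  positivity

theorem rieszProduct_eq (a b : 𝓞 K) (k X : ℝ) : rieszProduct a b k X =
    ∏ v ∈ (fin_le a b X).toFinset,
      (((pointCount a b v.1 : ℝ) + 1) / q v.1) ^ ((1 - Real.log (q v.1) / Real.log X) ^ k) :=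
  finprod_mem_eq_finite_toFinset_prod
    (fun v : {v // Good a b v} =>
      (((pointCount a b v.1 : ℝ) + 1) / q v.1) ^ ((1 - Real.log (q v.1) / Real.log X) ^ k))
    (fin_le a b X)

theorem rieszProduct_pos (a b : 𝓞 K) (k X : ℝ) : 0 < rieszProduct a b k X := by
  rw [rieszProduct_eq]
  exact Finset.prod_pos fun v _ => Real.rpow_pos_of_pos (factor_pos v) _

theorem log_rieszProduct (a b : 𝓞 K) (k : ℝ) {X : ℝ} (hX : 0 < X) :
    Real.log (rieszProduct a b k X) = TH942.RA.Rz (nV a b) (alV a b) k (Real.log X) := by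
  have h1 : ∀ v : {v // Good a b v}, v ∈ (fin_le a b X).toFinset ↔
      Real.log (nV a b v) ≤ Real.log X := by
    intro v
    have hp : (0 : ℝ) < nV a b v := (sysV a b).Npos v
    rw [Set.Finite.mem_toFinset, Set.mem_ofPred_eq, Real.log_le_log_iff hp hX]
    rfl
  have e3 : TH942.RA.Rz (nV a b) (alV a b) k (Real.log X) =
      ∑' v : {v // Good a b v}, (if Real.log (nV a b v) ≤ Real.log X then
        cv (nV a b) (alV a b) v * (1 - Real.log (nV a b v) / Real.log X) ^ k else 0) := rfl
  have e4 : (∑' v : {v // Good a b v}, (if Real.log (nV a b v) ≤ Real.log X then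
        cv (nV a b) (alV a b) v * (1 - Real.log (nV a b v) / Real.log X) ^ k else 0)) =
      ∑ v ∈ (fin_le a b X).toFinset, (if Real.log (nV a b v) ≤ Real.log X then
        cv (nV a b) (alV a b) v * (1 - Real.log (nV a b v) / Real.log X) ^ k else 0) :=
    tsum_eq_sum fun v hv => if_neg fun h => hv ((h1 v).2 h)
  rw [e3, e4, rieszProduct_eq, Real.log_prod fun v _ => (Real.rpow_pos_of_pos (factor_pos v) _).ne']
  refine Finset.sum_congr rfl fun v hv => ?_
  rw [if_pos ((h1 v).1 hv), Real.log_rpow (factor_pos v)]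
  have e5 : cv (nV a b) (alV a b) v = Real.log (((pointCount a b v.1 : ℝ) + 1) / q v.1) :=
    curve_cv v
  rw [e5, mul_comm]
  rfl

theorem points_pos (a b : 𝓞 K) (X : ℝ) : (0 : ℝ) < pointsUpTo a b X := by
  have h1 : 0 < pointsUpTo a b X := Nat.succ_pos _
  exact_mod_cast h1

/-- the logarithm of the number of points -/
theorem points_log (hΔ : 4 * a ^ 3 + 27 * b ^ 2 ≠ 0) : ∃ C : ℝ,
    ∀ᶠ X : ℝ in atTop, |2 * Real.log (pointsUpTo a b X) -
      rank a b * Real.log (Real.log X)| ≤ C := by
  classical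
  have hD : 4 * (a : K) ^ 3 + 27 * (b : K) ^ 2 ≠ 0 := by
    intro h0
    apply hΔ
    apply FaithfulSMul.algebraMap_injective (𝓞 K) K
    rw [map_zero, map_add, map_mul, map_mul, map_pow, map_pow, map_ofNat, map_ofNat]
    exact h0
  obtain ⟨κ, hκ, h⟩ := ptsK_growth hD
  have h1 := (h.log hκ.ne').const_mul 2
  have h2 : Tendsto (fun X : ℝ => 2 * Real.log (pointsUpTo a b X) -
      rank a b * Real.log (Real.log X)) atTop (𝓝 (2 * Real.log κ)) := by
    refine h1.congr' ?_
    filter_upwards [eventually_gt_atTop 1] with X hX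
    have hl : 0 < Real.log X := Real.log_pos hX
    have hr : (rank a b : ℝ) = (Module.finrank ℤ (TH942.SPt (a : K) (b : K)) : ℝ) := rfl
    have hc : (ptsK (a : K) (b : K) X : ℝ) = pointsUpTo a b X := rfl
    rw [hc, Real.log_div (points_pos a b X).ne' (Real.rpow_pos_of_pos hl _).ne', Real.log_rpow hl,
      hr]
    ring
  exact ⟨|2 * Real.log κ| + 1, (h2.abs.eventually_le_const (by linarith)).mono fun _ h => h⟩

/-- the law and the means of the logarithms -/
theorem law_iff (hΔ : 4 * a ^ 3 + 27 * b ^ 2 ≠ 0) (j : ℤ) (k : ℝ) :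
    Law a b j k ↔ TH942.RA.RLaw (nV a b) (alV a b) k ((rank a b : ℝ) - 2 * j) := by
  obtain ⟨C, hC⟩ := points_log hΔ
  have hlog : ∀ X : ℝ, 1 < X → Real.log (Real.sqrt (rieszProduct a b k X) * Real.log X ^ j) =
      TH942.RA.Rz (nV a b) (alV a b) k (Real.log X) / 2 + j * Real.log (Real.log X) := by
    intro X hX
    have hl : 0 < Real.log X := Real.log_pos hX
    have hP := rieszProduct_pos a b k X
    rw [Real.log_mul (Real.sqrt_pos.2 hP).ne' (zpow_pos hl j).ne', Real.log_sqrt hP.le,
      Real.log_zpow, log_rieszProduct a b k (by linarith)]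
  have hpos : ∀ X : ℝ, 1 < X → 0 < Real.sqrt (rieszProduct a b k X) * Real.log X ^ j :=
    fun X hX => mul_pos (Real.sqrt_pos.2 (rieszProduct_pos a b k X)) (zpow_pos (Real.log_pos hX) j)
  constructor
  · rintro ⟨A, B, hA, hB, h⟩
    refine ⟨2 * (|Real.log A| + |Real.log B|) + C, ?_⟩
    have h1 : ∀ᶠ X : ℝ in atTop, |TH942.RA.Rz (nV a b) (alV a b) k (Real.log X) -
        ((rank a b : ℝ) - 2 * j) * Real.log (Real.log X)| ≤
          2 * (|Real.log A| + |Real.log B|) + C := by
      filter_upwards [h, hC, eventually_gt_atTop 1] with X h2 h3 hX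
      have hp := hpos X hX
      have h4 := Real.log_le_log (mul_pos hA hp) h2.1
      have h5 := Real.log_le_log (points_pos a b X) h2.2
      rw [Real.log_mul hA.ne' hp.ne', hlog X hX] at h4
      rw [Real.log_mul hB.ne' hp.ne', hlog X hX] at h5
      have h6 := neg_abs_le (Real.log A)
      have h7 := le_abs_self (Real.log B)
      have h8 := abs_nonneg (Real.log A)
      have h9 := abs_nonneg (Real.log B)
      rw [abs_le] at h3 ⊢
      constructor <;> nlinarith [h3.1, h3.2]
    have h2 := Real.tendsto_exp_atTop.eventually h1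
    filter_upwards [h2] with T hT
    rwa [Real.log_exp] at hT
  · rintro ⟨B, h⟩
    have h1 := Real.tendsto_log_atTop.eventually h
    refine ⟨Real.exp (-((|B| + |C|) / 2)), Real.exp ((|B| + |C|) / 2), Real.exp_pos _,
      Real.exp_pos _, ?_⟩
    filter_upwards [h1, hC, eventually_gt_atTop 1] with X h2 h3 hX
    have hp := hpos X hX
    have hN := points_pos a b X
    have h4 := le_abs_self B
    have h5 := le_abs_self C
    rw [abs_le] at h2 h3
    constructor
    · rw [← Real.log_le_log_iff (mul_pos (Real.exp_pos _) hp) hN,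
        Real.log_mul (Real.exp_pos _).ne' hp.ne', Real.log_exp, hlog X hX]
      nlinarith [h2.1, h2.2, h3.1, h3.2]
    · rw [← Real.log_le_log_iff hN (mul_pos (Real.exp_pos _) hp),
        Real.log_mul (Real.exp_pos _).ne' hp.ne', Real.log_exp, hlog X hX]
      nlinarith [h2.1, h2.2, h3.1, h3.2]

end proofs

/-- **The conjecture of Birch and Swinnerton-Dyer modulo `2` with the Riemann hypothesis is equivalent to a law
with an integral power of `log X`.** -/
theorem result (K : Type) [Field K] [NumberField K] (a b : 𝓞 K)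
    (hΔ : 4 * a ^ 3 + 27 * b ^ 2 ≠ 0) (F : ℂ → ℂ) (hF : Continues a b F) : List.TFAE [
      (∃ m : ℕ, analyticOrderAt F 1 = m ∧ (-1 : ℤ) ^ rank a b = (-1) ^ m) ∧
        ∀ s : ℂ, 1 < s.re → F s ≠ 0,
      ∃ j : ℤ, ∀ k : ℝ, 0 < k → Law a b j k,
      ∃ (j : ℤ) (k : ℝ), 0 ≤ k ∧ Law a b j k] := by
  obtain ⟨A, hA⟩ := hF.2.2.2
  obtain ⟨m, hm⟩ := hF.isCont.order_finite
  have H := hF.isCont.con
  set Ψ : ℂ → ℂ := fun s => F (1 + s) with hΨ
  have h0 : AnalyticAt ℂ Ψ 0 := by
    have h1 : AnalyticAt ℂ (fun z : ℂ => 1 + z) 0 := by fun_prop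
    exact AnalyticAt.fun_comp (by simpa using hF.2.1) h1
  have hgr : ∀ s : ℂ, 0 < s.re → ‖Ψ s‖ ≤ A * (1 + ‖s‖) ^ A * (1 + 1 / s.re) ^ A := by
    intro s hs
    have h1 := hA (1 + s) (by rw [Complex.add_re, Complex.one_re]; linarith)
    rw [add_sub_cancel_left, Complex.add_re, Complex.one_re, add_sub_cancel_left] at h1
    exact h1
  have hord : ∀ n : ℕ, analyticOrderAt Ψ 0 = n ↔ analyticOrderAt F 1 = n := by
    intro n
    rw [h0.analyticOrderAt_eq_natCast, hF.2.1.analyticOrderAt_eq_natCast]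
    have ht : Tendsto (fun z : ℂ => 1 + z) (𝓝 0) (𝓝 1) := by
      have : Continuous fun z : ℂ => 1 + z := by fun_prop
      simpa using this.tendsto 0
    have ht' : Tendsto (fun z : ℂ => z - 1) (𝓝 1) (𝓝 0) := by
      have : Continuous fun z : ℂ => z - 1 := by fun_prop
      simpa using this.tendsto 1
    constructor
    · rintro ⟨g, h1, h2, h3⟩
      refine ⟨fun z => g (z - 1), ?_, by simpa using h2, ?_⟩
      · have h4 : AnalyticAt ℂ (fun z : ℂ => z - 1) 1 := by fun_prop
        exact AnalyticAt.fun_comp (by simpa using h1) h4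
      · filter_upwards [ht'.eventually h3] with z hz
        rw [hΨ] at hz
        simp only [sub_zero, add_sub_cancel] at hz
        exact hz
    · rintro ⟨g, h1, h2, h3⟩
      refine ⟨fun z => g (1 + z), ?_, by simpa using h2, ?_⟩
      · have h4 : AnalyticAt ℂ (fun z : ℂ => 1 + z) 0 := by fun_prop
        exact AnalyticAt.fun_comp (by simpa using h1) h4
      · filter_upwards [ht.eventually h3] with z hz
        rw [hΨ]
        simp only [sub_zero]
        rw [hz, add_sub_cancel_left]
  have hnz : (∀ s : ℂ, 0 < s.re → Ψ s ≠ 0) ↔ ∀ s : ℂ, 1 < s.re → F s ≠ 0 := by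
    constructor
    · intro h s hs
      have := h (s - 1) (by rw [Complex.sub_re, Complex.one_re]; linarith)
      rw [hΨ] at this
      simpa only [add_sub_cancel] using this
    · intro h s hs
      exact h (1 + s) (by rw [Complex.add_re, Complex.one_re]; linarith)
  tfae_have 1 → 2 := by
    rintro ⟨⟨m', h1, h2⟩, h3⟩
    obtain ⟨j, hj⟩ := (par_iff _ _).1 h2
    refine ⟨j, fun k hk => ?_⟩
    rw [law_iff hΔ]
    have h4 := TH942.RA.law_of_con (sysV a b) H h0 ((hord m').2 h1) (hnz.2 h3) hgr hk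
    have h5 : (rank a b : ℝ) - 2 * j = m' := by linarith
    rw [h5]
    exact h4
  tfae_have 2 → 3 := by
    rintro ⟨j, h⟩
    exact ⟨j, 1, zero_le_one, h 1 one_pos⟩
  tfae_have 3 → 1 := by
    rintro ⟨j, k, hk, h⟩
    rw [law_iff hΔ] at h
    obtain ⟨h1, h2⟩ := TH942.RA.of_con (sysV a b) H h0 (TH942.RA.logCont_of_law (sysV a b) hk h)
    have h3 := h2 m ((hord m).2 hm)
    exact ⟨⟨m, hm, (par_iff _ _).2 ⟨j, by linarith⟩⟩, hnz.1 h1⟩
  tfae_finish

end Pool.Agent.Results.MP_413b36_nt.IntegralPowerLaw
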